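import Mathlib

/-!
# Theorem E, chapter 6: cycles of a level increasing permutation of the tokens
-/

namespace Pool.Agent.Lib.MP_688fd0_co.TE

/-- Levels along the permutation `F` of the tokens: `vt` = vertex tokens, `ci`, `co` = cells of
the entry and of the exit, `ba t` = the arc `t → F t` is a B-arc. -/
structure Lv {T Q : Type*} (F : Equiv.Perm T) (m : ℕ) (lev : T → ZMod m) (vt : T → Prop)
    (ci co : T → Q) (ba : T → Prop) : Prop where
  adv : ∀ t, lev (F t) = lev t + 1 ∨ lev (F t) = lev t + 2
  cell : ∀ t, lev t ≠ 0 ∨ vt t → ci t = co t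
  arc : ∀ t, ba t ∨ (lev t = 0 ∧ vt t ∧ vt (F t) ∧ lev (F t) = 1)
  bac : ∀ t, ba t → co t = ci (F t)
  alt : ∀ t, vt t ∨ vt (F t)

section

variable {T Q : Type*} {F : Equiv.Perm T} {m : ℕ} {lev : T → ZMod m} {vt : T → Prop}
  {ci co : T → Q} {ba : T → Prop}

theorem val_one' (hm : 8 ≤ m) : (1 : ZMod m).val = 1 := by
  have := ZMod.val_natCast m 1
  rw [Nat.cast_one, Nat.mod_eq_of_lt (by omega)] at this
  exact this

theorem val_two' (hm : 8 ≤ m) : (2 : ZMod m).val = 2 := by
  have := ZMod.val_natCast m 2
  rw [Nat.cast_ofNat, Nat.mod_eq_of_lt (by omega)] at this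
  exact this

theorem Lv.ba_of_ne (h : Lv F m lev vt ci co ba) {t : T} (ht : lev t ≠ 0) : ba t := by
  rcases h.arc t with h1 | h1
  · exact h1
  · exact absurd h1.1 ht

theorem Lv.ci_step (h : Lv F m lev vt ci co ba) {t : T} (ht : lev t ≠ 0) :
    ci (F t) = ci t := by
  rw [← h.bac t (h.ba_of_ne ht), ← h.cell t (Or.inl ht)]

/-- forward step without wrap -/
theorem Lv.fwd (hm : 8 ≤ m) (h : Lv F m lev vt ci co ba) {t : T} (ht : (lev t).val + 2 < m) :
    (lev t).val < (lev (F t)).val ∧ (lev (F t)).val ≤ (lev t).val + 2 := by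
  haveI : NeZero m := ⟨by omega⟩
  rcases h.adv t with h1 | h1
  · rw [h1, ZMod.val_add_of_lt (by rw [val_one' hm]; omega), val_one' hm]; omega
  · rw [h1, ZMod.val_add_of_lt (by rw [val_two' hm]; omega), val_two' hm]; omega

/-- backward step without wrap -/
theorem Lv.bwd (hm : 8 ≤ m) (h : Lv F m lev vt ci co ba) {t : T} (ht : 3 ≤ (lev t).val) :
    (lev (F.symm t)).val < (lev t).val ∧ (lev t).val ≤ (lev (F.symm t)).val + 2 := by
  haveI : NeZero m := ⟨by omega⟩
  have h0 := h.adv (F.symm t)
  rw [Equiv.apply_symm_apply] at h0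
  rcases h0 with h1 | h1
  · have h2 : lev (F.symm t) = lev t - 1 := by rw [h1]; ring
    rw [h2, ZMod.val_sub (by rw [val_one' hm]; omega), val_one' hm]; omega
  · have h2 : lev (F.symm t) = lev t - 2 := by rw [h1]; ring
    rw [h2, ZMod.val_sub (by rw [val_two' hm]; omega), val_two' hm]; omega

/-- A run: strictly increasing values along `J` steps starting with a nonzero level. -/
theorem Lv.run (h : Lv F m lev vt ci co ba) (t : ℕ → T) (ht : ∀ j, t (j + 1) = F (t j))
    (J : ℕ) (h0 : 1 ≤ (lev (t 0)).val)
    (hinc : ∀ j < J, (lev (t j)).val < (lev (t (j + 1))).val) :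
    (∀ j ≤ J, ci (t j) = ci (t 0)) ∧
    ∃ s : Finset T, J ≤ 2 * s.card ∧ ∀ w ∈ s, vt w ∧ ∃ j ≤ J, w = t j := by
  classical
  have hmono : ∀ j k, j < k → k ≤ J → (lev (t j)).val < (lev (t k)).val := by
    intro j k hjk hk
    induction k with
    | zero => omega
    | succ k ih =>
      have h1 := hinc k (by omega)
      rcases Nat.lt_succ_iff_lt_or_eq.1 hjk with h2 | h2
      · exact lt_trans (ih h2 (by omega)) h1
      · rw [h2]; exact h1
  have hpos : ∀ j ≤ J, lev (t j) ≠ 0 := by
    intro j hj e
    have h1 : 1 ≤ (lev (t j)).val := by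
      rcases Nat.eq_zero_or_pos j with rfl | h2
      · exact h0
      · have := hmono 0 j h2 hj
        omega
    rw [e, ZMod.val_zero] at h1
    omega
  have hcell : ∀ j ≤ J, ci (t j) = ci (t 0) := by
    intro j
    induction j with
    | zero => intro _; rfl
    | succ j ih =>
      intro hj
      rw [ht, h.ci_step (hpos j (by omega)), ih (by omega)]
  refine ⟨hcell, ?_⟩
  have hch : ∀ i, ∃ j, (j = 2 * i ∨ j = 2 * i + 1) ∧ vt (t j) := by
    intro i
    rcases h.alt (t (2 * i)) with h1 | h1
    · exact ⟨2 * i, Or.inl rfl, h1⟩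
    · exact ⟨2 * i + 1, Or.inr rfl, by rw [ht]; exact h1⟩
  choose c hc1 hc2 using hch
  refine ⟨(Finset.range ((J + 1) / 2)).image (fun i => t (c i)), ?_, ?_⟩
  · rw [Finset.card_image_of_injOn, Finset.card_range]
    · omega
    · intro i hi k hk hik
      simp only [Finset.coe_range, Set.mem_Iio] at hi hk
      by_contra hne
      have hci := hc1 i
      have hck := hc1 k
      have hik' : (lev (t (c i))).val = (lev (t (c k))).val := by
        simp only at hik
        rw [hik]
      rcases lt_or_gt_of_ne (show c i ≠ c k by omega) with h1 | h1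
      · have := hmono (c i) (c k) h1 (by omega)
        omega
      · have := hmono (c k) (c i) h1 (by omega)
        omega
  · intro w hw
    rw [Finset.mem_image] at hw
    obtain ⟨i, hi, rfl⟩ := hw
    rw [Finset.mem_range] at hi
    have := hc1 i
    exact ⟨hc2 i, c i, by omega, rfl⟩

theorem sameCycle_iter (F : Equiv.Perm T) (u : T) (n : ℕ) :
    F.SameCycle u (F^[n] u) := ⟨n, by rw [zpow_natCast, Equiv.Perm.coe_pow]⟩

/-- Tokens with nonzero level. -/
theorem Lv.main (hm : 8 ≤ m) (h : Lv F m lev vt ci co ba) (u : T) (hu : lev u ≠ 0) :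
    ∃ s : Finset T, m ≤ 8 * s.card ∧ ∀ w ∈ s, vt w ∧ ci w = ci u ∧ F.SameCycle u w := by
  haveI : NeZero m := ⟨by omega⟩
  set L := (lev u).val with hL
  have hL1 : 1 ≤ L := by
    rcases Nat.eq_zero_or_pos L with h0 | h0
    · exact absurd ((ZMod.val_eq_zero _).1 h0) hu
    · exact h0
  have hLm : L < m := ZMod.val_lt _
  -- backward
  have hb : ∀ j, 2 * j + 1 ≤ L → (L ≤ (lev (F.symm^[j] u)).val + 2 * j ∧
      1 ≤ (lev (F.symm^[j] u)).val) ∧
      (2 * (j + 1) + 1 ≤ L → (lev (F.symm^[j + 1] u)).val < (lev (F.symm^[j] u)).val) := by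
    intro j
    induction j with
    | zero =>
      intro _
      refine ⟨⟨by simp [hL], by simpa [hL] using hL1⟩, ?_⟩
      intro h3
      exact (h.bwd hm (t := u) (by omega)).1
    | succ j ih =>
      intro hj
      obtain ⟨⟨h1, h2⟩, h3⟩ := ih (by omega)
      have h4 := h.bwd hm (t := F.symm^[j] u) (by omega)
      rw [← Function.iterate_succ_apply' (f := F.symm), Nat.succ_eq_add_one] at h4
      refine ⟨⟨by omega, by omega⟩, ?_⟩
      intro h5
      have h6 := h.bwd hm (t := F.symm^[j + 1] u) (by omega)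
      rw [← Function.iterate_succ_apply' (f := F.symm), Nat.succ_eq_add_one] at h6
      exact h6.1
  -- forward
  have hf : ∀ j, L + 2 * j + 1 ≤ m → (lev (F^[j] u)).val ≤ L + 2 * j ∧
      (L + 2 * (j + 1) + 1 ≤ m → (lev (F^[j] u)).val < (lev (F^[j + 1] u)).val) := by
    intro j
    induction j with
    | zero =>
      intro _
      refine ⟨by simp [hL], ?_⟩
      intro h3
      exact (h.fwd hm (t := u) (by omega)).1
    | succ j ih =>
      intro hj
      obtain ⟨h1, h2⟩ := ih (by omega)
      have h4 := h.fwd hm (t := F^[j] u) (by omega)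
      rw [← Function.iterate_succ_apply' (f := F), Nat.succ_eq_add_one] at h4
      refine ⟨by omega, ?_⟩
      intro h5
      have h6 := h.fwd hm (t := F^[j + 1] u) (by omega)
      rw [← Function.iterate_succ_apply' (f := F), Nat.succ_eq_add_one] at h6
      exact h6.1
  set J2 := (L - 1) / 2 with hJ2
  set J1 := (m - 1 - L) / 2 with hJ1
  set a := F.symm^[J2] u with ha
  have hback : ∀ i ≤ J2, F^[i] a = F.symm^[J2 - i] u := by
    intro i
    induction i with
    | zero => intro _; rfl
    | succ i ih =>
      intro hi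
      rw [Function.iterate_succ_apply', ih (by omega)]
      have : J2 - i = (J2 - (i + 1)) + 1 := by omega
      rw [this, Function.iterate_succ_apply', Equiv.apply_symm_apply]
  have hfwd : ∀ i, F^[J2 + i] a = F^[i] u := by
    intro i
    rw [add_comm, Function.iterate_add_apply, hback J2 le_rfl, Nat.sub_self]
    rfl
  obtain ⟨r1, s, r2, r3⟩ := h.run (fun j => F^[j] a)
    (fun j => Function.iterate_succ_apply' F j a) (J2 + J1) (by
      have := (hb J2 (by omega)).1.2
      exact this) (by
      intro j hj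
      rcases Nat.lt_or_ge j J2 with hj2 | hj2
      · rw [hback j (by omega), hback (j + 1) (by omega)]
        have h5 := (hb (J2 - (j + 1)) (by omega)).2 (by omega)
        have : J2 - j = J2 - (j + 1) + 1 := by omega
        rw [this]
        exact h5
      · obtain ⟨i, rfl⟩ := Nat.exists_eq_add_of_le hj2
        rw [hfwd i, add_assoc, hfwd (i + 1)]
        exact (hf i (by omega)).2 (by omega))
  refine ⟨s, by omega, ?_⟩
  intro w hw
  obtain ⟨h1, j, hj, rfl⟩ := r3 w hw
  have hu0 : F^[J2] a = u := hfwd 0
  refine ⟨h1, ?_, ?_⟩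
  · have h2 := r1 j hj
    have h3 := r1 J2 (by omega)
    rw [hu0] at h3
    rw [h2, h3]
  · have h4 : F.SameCycle a u := by
      have := sameCycle_iter F a J2
      rwa [hu0] at this
    exact h4.symm.trans (sameCycle_iter F a j)

/-- (6.2): the cycle of a vertex token `v` contains at least `m/8` vertex tokens of its cell. -/
theorem cyc6 (hm : 8 ≤ m) (h : Lv F m lev vt ci co ba) (v : T) (hv : vt v) :
    ∃ s : Finset T, m ≤ 8 * s.card ∧ ∀ w ∈ s, vt w ∧ ci w = ci v ∧ F.SameCycle v w := by
  haveI : NeZero m := ⟨by omega⟩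
  by_cases h0 : lev v = 0
  · rcases h.arc v with h1 | h1
    · -- forward
      have h2 : lev (F v) ≠ 0 := by
        rcases h.adv v with h3 | h3
        · rw [h3, h0, zero_add]
          intro e
          have := congrArg ZMod.val e
          rw [val_one' hm, ZMod.val_zero] at this
          omega
        · rw [h3, h0, zero_add]
          intro e
          have := congrArg ZMod.val e
          rw [val_two' hm, ZMod.val_zero] at this
          omega
      obtain ⟨s, hs, hs'⟩ := h.main hm (F v) h2
      refine ⟨s, hs, fun w hw => ?_⟩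
      obtain ⟨a1, a2, a3⟩ := hs' w hw
      refine ⟨a1, ?_, ?_⟩
      · rw [a2, ← h.bac v h1, ← h.cell v (Or.inr hv)]
      · exact (sameCycle_iter F v 1).trans a3
    · -- backward
      have h2 : lev (F.symm v) ≠ 0 := by
        intro e
        have h4 := h.adv (F.symm v)
        rw [Equiv.apply_symm_apply, h0, e, zero_add, zero_add] at h4
        rcases h4 with h3 | h3
        · have := congrArg ZMod.val h3
          rw [val_one' hm, ZMod.val_zero] at this
          omega
        · have := congrArg ZMod.val h3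
          rw [val_two' hm, ZMod.val_zero] at this
          omega
      obtain ⟨s, hs, hs'⟩ := h.main hm (F.symm v) h2
      refine ⟨s, hs, fun w hw => ?_⟩
      obtain ⟨a1, a2, a3⟩ := hs' w hw
      have h5 : F.SameCycle (F.symm v) v := by
        have := sameCycle_iter F (F.symm v) 1
        rwa [Function.iterate_one, Equiv.apply_symm_apply] at this
      refine ⟨a1, ?_, ?_⟩
      · rw [a2, ← h.ci_step h2, Equiv.apply_symm_apply]
      · exact h5.symm.trans a3
  · exact h.main hm v h0

/-- (6.3): one of the two arcs at a vertex token is a B-arc. -/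
theorem star6 (hm : 8 ≤ m) (h : Lv F m lev vt ci co ba) (v : T) : ba v ∨ ba (F.symm v) := by
  rcases h.arc v with h1 | h1
  · exact Or.inl h1
  · right
    apply h.ba_of_ne
    intro e
    have h4 := h.adv (F.symm v)
    rw [Equiv.apply_symm_apply, h1.1, e, zero_add, zero_add] at h4
    rcases h4 with h3 | h3
    · have := congrArg ZMod.val h3
      rw [val_one' hm, ZMod.val_zero] at this
      omega
    · have := congrArg ZMod.val h3
      rw [val_two' hm, ZMod.val_zero] at this
      omega

end

end Pool.Agent.Lib.MP_688fd0_co.TE
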