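import Pool.Agent.Lib.MP_688fd0_co.TE.H91.Inv
import Pool.Agent.Lib.MP_688fd0_co.Cyc

/-!
# Theorem E, chapter 8: from two involutions with one class to a Hamiltonian cycle

`body p` is the list of vertices of the token of the port `p`, read from the port `p` to the port
`μ p`; `seg p` is the list of interior vertices of the link realising the edge `p - Φ p`.
-/

namespace Pool.Agent.Lib.MP_688fd0_co.TE

open Pool.Agent.Lib.MP_688fd0_co

variable {P V : Type*}

theorem pe_subset_iff {Γ : SimpleGraph V} {l : List V} :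
    pe l ⊆ Γ.edgeSet ↔ l.IsChain Γ.Adj := by
  induction l with
  | nil => simp
  | cons a t ih =>
    cases t with
    | nil => simp
    | cons b t' =>
      rw [pe_cons_cons, Set.insert_subset_iff, ih, List.isChain_cons_cons,
        SimpleGraph.mem_edgeSet]

theorem rho_ne_mu {Φ μ : P → P} (hΦ : FFI Φ) (hμ : FFI μ) (i j : ℕ) (a : P) :
    (Φ ∘ μ)^[i] a ≠ μ ((Φ ∘ μ)^[j] a) := by
  rcases le_total i j with h | h
  · obtain ⟨k, rfl⟩ := Nat.exists_eq_add_of_le h
    rw [add_comm i k, Function.iterate_add_apply]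
    exact ((pal hΦ hμ k).1 _).symm
  · obtain ⟨k, rfl⟩ := Nat.exists_eq_add_of_le h
    rw [add_comm j k, Function.iterate_add_apply]
    intro e
    have e1 := congrArg μ e
    rw [hμ.inv] at e1
    exact (pal hΦ hμ k).1 _ e1

/-- If there is only one class then all ports are on the orbit of `a`. -/
theorem cover [Finite P] {Φ μ : P → P} (hΦ : FFI Φ) (hμ : FFI μ) {a p : P}
    (h : Rel2 Φ μ a p) : ∃ i < Function.minimalPeriod (Φ ∘ μ) a,
      p = (Φ ∘ μ)^[i] a ∨ p = μ ((Φ ∘ μ)^[i] a) := by
  set ρ := Φ ∘ μ with hρ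
  have hper := periodic hΦ hμ a
  have hNpos : 0 < Function.minimalPeriod ρ a :=
    Function.minimalPeriod_pos_of_mem_periodicPts hper
  have hN : ρ^[Function.minimalPeriod ρ a] a = a := Function.iterate_minimalPeriod
  suffices hS : ∃ i, p = ρ^[i] a ∨ p = μ (ρ^[i] a) by
    obtain ⟨i, hi⟩ := hS
    refine ⟨i % Function.minimalPeriod ρ a, Nat.mod_lt _ hNpos, ?_⟩
    rw [Function.iterate_mod_minimalPeriod_eq]
    exact hi
  have hμS : ∀ q, (∃ i, q = ρ^[i] a ∨ q = μ (ρ^[i] a)) →
      ∃ i, μ q = ρ^[i] a ∨ μ q = μ (ρ^[i] a) := by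
    rintro q ⟨i, rfl | rfl⟩
    · exact ⟨i, Or.inr rfl⟩
    · exact ⟨i, Or.inl (hμ.inv _)⟩
  have hΦS : ∀ q, (∃ i, q = ρ^[i] a ∨ q = μ (ρ^[i] a)) →
      ∃ i, Φ q = ρ^[i] a ∨ Φ q = μ (ρ^[i] a) := by
    rintro q ⟨i, rfl | rfl⟩
    · refine ⟨i + (Function.minimalPeriod ρ a - 1), Or.inr ?_⟩
      have h1 : ρ^[i] a = ρ^[i + (Function.minimalPeriod ρ a - 1) + 1] a := by
        rw [show i + (Function.minimalPeriod ρ a - 1) + 1 = i + Function.minimalPeriod ρ a by
          omega, Function.iterate_add_apply, hN]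
      rw [h1, Function.iterate_succ_apply']
      change Φ (Φ (μ _)) = _
      rw [hΦ.inv]
    · refine ⟨i + 1, Or.inl ?_⟩
      rw [Function.iterate_succ_apply']
      rfl
  have key : ∀ c d, Rel2 Φ μ c d → ((∃ i, c = ρ^[i] a ∨ c = μ (ρ^[i] a)) ↔
      (∃ i, d = ρ^[i] a ∨ d = μ (ρ^[i] a))) := by
    intro c d hcd
    induction hcd with
    | rel x y hxy =>
      rcases hxy with rfl | rfl
      · refine ⟨hΦS x, fun h1 => ?_⟩
        have := hΦS _ h1
        rwa [hΦ.inv] at this
      · refine ⟨hμS x, fun h1 => ?_⟩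
        have := hμS _ h1
        rwa [hμ.inv] at this
    | refl x => exact Iff.rfl
    | symm x y _ ih => exact ih.symm
    | trans x y z _ _ ih1 ih2 => exact ih1.trans ih2
  exact (key a p h).1 ⟨0, Or.inl rfl⟩

/-- EXPAND. -/
theorem expand [Finite P] (Γ : SimpleGraph V) {Φ μ : P → P} (hΦ : FFI Φ) (hμ : FFI μ)
    (body seg : P → List V) (hbn : ∀ p, body p ≠ [])
    (hbr : ∀ p, body (μ p) = (body p).reverse) (hsr : ∀ p, seg (Φ p) = (seg p).reverse)
    (hbc : ∀ p, (body p).IsChain Γ.Adj)
    (hsc : ∀ p, ((body p).head (hbn p) :: (seg p ++ [(body (Φ p)).head (hbn _)])).IsChain Γ.Adj)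
    (hbd : ∀ p, (body p).Nodup) (hsd : ∀ p, (seg p).Nodup)
    (hbb : ∀ p q v, v ∈ body p → v ∈ body q → q = p ∨ q = μ p)
    (hss : ∀ p q v, v ∈ seg p → v ∈ seg q → q = p ∨ q = Φ p)
    (hbs : ∀ p q v, v ∈ body p → v ∉ seg q)
    (hcov : ∀ v, (∃ p, v ∈ body p) ∨ (∃ p, v ∈ seg p))
    (a : P) (hconn : ∀ p, Rel2 Φ μ a p) : IsHC Γ Set.univ ∅ := by
  set ρ := Φ ∘ μ with hρ
  set N := Function.minimalPeriod ρ a with hNdef
  have hper := periodic hΦ hμ a
  have hNpos : 0 < N := Function.minimalPeriod_pos_of_mem_periodicPts hper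
  have hN : ρ^[N] a = a := Function.iterate_minimalPeriod
  let blk : ℕ → List V := fun i => body (ρ^[i] a) ++ seg (μ (ρ^[i] a))
  let hd : ℕ → V := fun i => (body (ρ^[i] a)).head (hbn _)
  have hblk : ∀ i, (blk i ++ [hd (i + 1)]).IsChain Γ.Adj := by
    intro i
    simp only [blk, hd]
    rw [List.append_assoc, List.isChain_append]
    have h1 := hsc (μ (ρ^[i] a))
    have h2 : Φ (μ (ρ^[i] a)) = ρ^[i + 1] a := by
      rw [Function.iterate_succ_apply']; rfl
    have h3 : ((body (Φ (μ (ρ^[i] a)))).head (hbn _)) = (body (ρ^[i + 1] a)).head (hbn _) := by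
      congr 1
      rw [h2]
    rw [h3] at h1
    refine ⟨hbc _, (List.isChain_cons.1 h1).2, ?_⟩
    intro x hx y hy
    rw [Option.mem_def] at hx hy
    have h4 : (body (μ (ρ^[i] a))).head (hbn _) = x := by
      have h5 : (body (ρ^[i] a)).getLast? = some x := hx
      have h6 := hbr (ρ^[i] a)
      have h7 : (body (μ (ρ^[i] a))).head? = some x := by
        rw [h6, List.head?_reverse]; exact h5
      rw [List.head?_eq_some_head (hbn _)] at h7
      exact Option.some_injective _ h7
    rw [← h4]
    exact (List.isChain_cons.1 h1).1 y hy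
  have hhd : ∀ i (l : List V), (blk i ++ l).head? = some (hd i) := by
    intro i l
    simp only [blk, hd]
    rw [List.append_assoc, List.head?_append_of_ne_nil _ (hbn _), List.head?_eq_some_head (hbn _)]
  have hchain : ∀ n, ((List.range n).flatMap blk ++ [hd n]).IsChain Γ.Adj := by
    intro n
    induction n with
    | zero => simp
    | succ n ih =>
      rw [List.range_succ, List.flatMap_append, List.flatMap_singleton, List.append_assoc,
        List.isChain_append]
      rw [List.isChain_append] at ih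
      refine ⟨ih.1, hblk n, ?_⟩
      intro x hx y hy
      rw [hhd] at hy
      exact ih.2.2 x hx y (by simpa using hy)
  have hinj : ∀ i < N, ∀ j < N, ρ^[i] a = ρ^[j] a → i = j := by
    intro i hi j hj h
    exact Function.iterate_injOn_Iio_minimalPeriod hi hj h
  refine ⟨(List.range N).flatMap blk, ?_, ?_, ?_, Set.empty_subset _⟩
  · rw [List.nodup_flatMap]
    constructor
    · intro i _
      rw [List.nodup_append]
      refine ⟨hbd _, hsd _, ?_⟩
      rintro x hx y hy rfl
      exact hbs _ _ _ hx hy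
    · rw [List.pairwise_iff_getElem]
      intro i j hi hj hij
      rw [List.getElem_range, List.getElem_range]
      rw [List.length_range] at hi hj
      intro v hv hv'
      simp only [blk, List.mem_append] at hv hv'
      rcases hv with hv | hv <;> rcases hv' with hv' | hv'
      · rcases hbb _ _ _ hv hv' with h | h
        · have := hinj _ hj _ hi h
          omega
        · exact rho_ne_mu hΦ hμ _ _ _ h
      · exact hbs _ _ _ hv hv'
      · exact hbs _ _ _ hv' hv
      · rcases hss _ _ _ hv hv' with h | h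
        · have := hinj _ hj _ hi (hμ.inj h)
          omega
        · have h2 : Φ (μ (ρ^[i] a)) = ρ^[i + 1] a := by
            rw [Function.iterate_succ_apply']; rfl
          rw [h2] at h
          exact rho_ne_mu hΦ hμ _ _ _ h.symm
  · intro v
    simp only [Set.mem_univ, iff_true, List.mem_flatMap, List.mem_range]
    rcases hcov v with ⟨p, hp⟩ | ⟨p, hp⟩
    · obtain ⟨i, hi, rfl | rfl⟩ := cover hΦ hμ (hconn p)
      · exact ⟨i, hi, List.mem_append_left _ hp⟩
      · refine ⟨i, hi, List.mem_append_left _ ?_⟩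
        rw [hbr, List.mem_reverse] at hp
        exact hp
    · obtain ⟨i, hi, h⟩ := cover hΦ hμ (hconn (Φ p))
      obtain ⟨j, hj, h'⟩ := cover hΦ hμ (hconn p)
      rcases h' with rfl | rfl
      · -- `p = ρ^j a`, so `Φ p` is `μ ρ^i a`
        rcases h with h | h
        · exfalso
          have h3 : μ (ρ^[i] a) = μ (Φ (ρ^[j] a)) := by rw [h]
          have h5 : ρ^[j + N] a = Φ (μ (ρ^[j + (N - 1)] a)) := by
            rw [show j + N = j + (N - 1) + 1 by omega, Function.iterate_succ_apply']; rfl
          have h6 : ρ^[j + N] a = ρ^[j] a := by rw [Function.iterate_add_apply, hN]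
          have h7 : Φ (ρ^[j] a) = μ (ρ^[j + (N - 1)] a) := by rw [← h6, h5, hΦ.inv]
          rw [h7] at h
          exact rho_ne_mu hΦ hμ _ _ _ h.symm
        · refine ⟨i, hi, List.mem_append_right _ ?_⟩
          rw [← h, hsr, List.mem_reverse]
          exact hp
      · exact ⟨j, hj, List.mem_append_right _ hp⟩
  · have h1 := hchain N
    have h2 : hd N = hd 0 := by
      simp only [hd]
      congr 1
      rw [hN]
      rfl
    have h3 : (List.range N).flatMap blk ≠ [] := by
      intro h
      have h4 : (List.range N).flatMap blk = blk 0 ++ (List.range (N - 1)).flatMap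
          (fun i => blk (i + 1)) := by
        obtain ⟨M, hM⟩ : ∃ M, N = M + 1 := ⟨N - 1, by omega⟩
        rw [hM, List.range_succ_eq_map, List.flatMap_cons, Nat.add_sub_cancel, List.flatMap_map]
      rw [h4] at h
      have := hhd 0 ((List.range (N - 1)).flatMap (fun i => blk (i + 1)))
      rw [h] at this
      simp at this
    have h4 : ((List.range N).flatMap blk).head? = some (hd 0) := by
      have h4 : (List.range N).flatMap blk = blk 0 ++ (List.range (N - 1)).flatMap
          (fun i => blk (i + 1)) := by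
        obtain ⟨M, hM⟩ : ∃ M, N = M + 1 := ⟨N - 1, by omega⟩
        rw [hM, List.range_succ_eq_map, List.flatMap_cons, Nat.add_sub_cancel, List.flatMap_map]
      rw [h4]
      exact hhd 0 _
    obtain ⟨x, t, hxt⟩ := List.exists_cons_of_ne_nil h3
    rw [hxt] at h4 h1 ⊢
    rw [List.head?_cons] at h4
    have h5 : x = hd 0 := Option.some_injective _ h4
    rw [ce_cons, pe_subset_iff, h5, ← h2]
    rw [h5, ← h2] at h1
    exact h1

end Pool.Agent.Lib.MP_688fd0_co.TE
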