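import Pool.Agent.Lib.MP_688fd0_co.TE.H91.Round

/-!
# Theorem E, chapters 4 and 8, deterministic part: gadget systems, tokens, ports, the end

`RE` is the set of R-edges `(r, r')`; the gadget of `e` has the absorbing path `Pa e` (through
`e.1`, `e.2`) and the non-absorbing path `Pn e`, both from `ie e` to `oe e`.
-/

namespace Pool.Agent.Lib.MP_688fd0_co.TE

open Pool.Agent.Lib.MP_688fd0_co

variable {G : Type*}

/-- A system of gadgets. -/
structure GS (Γ : SimpleGraph G) (RE : Set (G × G)) where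
  Pa : G × G → List G
  Pn : G × G → List G
  ie : G × G → G
  oe : G × G → G
  pa_chain : ∀ e ∈ RE, (Pa e).IsChain Γ.Adj
  pn_chain : ∀ e ∈ RE, (Pn e).IsChain Γ.Adj
  pa_head : ∀ e ∈ RE, (Pa e).head? = some (ie e)
  pa_last : ∀ e ∈ RE, (Pa e).getLast? = some (oe e)
  pn_head : ∀ e ∈ RE, (Pn e).head? = some (ie e)
  pn_last : ∀ e ∈ RE, (Pn e).getLast? = some (oe e)
  perm : ∀ e ∈ RE, (Pa e).Perm (e.1 :: e.2 :: Pn e)
  nodup : ∀ e ∈ RE, (Pa e).Nodup
  disj : ∀ e ∈ RE, ∀ e' ∈ RE, e ≠ e' → ∀ v ∈ Pa e, v ∉ Pa e'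

/-- The vertices outside the gadgets. -/
def GS.V' {Γ : SimpleGraph G} {RE : Set (G × G)} (S : GS Γ RE) : Set G :=
  {v | ∀ e ∈ RE, v ∉ S.Pa e}

/-- Tokens: vertices outside the gadgets, and gadgets. -/
abbrev GS.Tok {Γ : SimpleGraph G} {RE : Set (G × G)} (S : GS Γ RE) : Type _ :=
  {v : G // v ∈ S.V'} ⊕ {e : G × G // e ∈ RE}

/-- Ports: `false` is the exit (row), `true` is the entry (column). -/
abbrev GS.Port {Γ : SimpleGraph G} {RE : Set (G × G)} (S : GS Γ RE) : Type _ := S.Tok × Bool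

/-- The vertex of a port. -/
def GS.vx {Γ : SimpleGraph G} {RE : Set (G × G)} (S : GS Γ RE) : S.Port → G
  | (Sum.inl v, _) => v.1
  | (Sum.inr e, false) => S.oe e.1
  | (Sum.inr e, true) => S.ie e.1

/-- The token involution. -/
def flipB {T : Type*} : T × Bool → T × Bool := fun p => (p.1, !p.2)

theorem flipB_ffi {T : Type*} : FFI (flipB : T × Bool → T × Bool) := by
  constructor
  · rintro ⟨t, b⟩; simp [flipB]
  · rintro ⟨t, b⟩ h
    have := congrArg Prod.snd h
    simp [flipB] at this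

/-- The edges of a permutation of the tokens. -/
def edgB {T : Type*} (F : Equiv.Perm T) : T × Bool → T × Bool
  | (t, false) => (F t, true)
  | (t, true) => (F.symm t, false)

theorem edgB_ffi {T : Type*} (F : Equiv.Perm T) : FFI (edgB F) := by
  constructor
  · rintro ⟨t, b⟩
    cases b <;> simp [edgB]
  · rintro ⟨t, b⟩ h
    have := congrArg Prod.snd h
    cases b <;> simp [edgB] at this

/-- The initial state. -/
theorem St.init {Γ : SimpleGraph G} {RE : Set (G × G)} (S : GS Γ RE) (F : Equiv.Perm S.Tok)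
    (hF : ∀ t, Γ.Adj (S.vx (t, false)) (S.vx (F t, true))) :
    St Γ RE S.vx (edgB F) (fun _ => []) := by
  refine ⟨edgB_ffi F, ?_, fun _ => rfl, fun _ _ _ h => by simp [flat] at h⟩
  intro p
  refine ⟨?_, by simp [flat], by simp⟩
  obtain ⟨t, b⟩ := p
  have key : Γ.Adj (S.vx (t, b)) (S.vx (edgB F (t, b))) := by
    cases b
    · exact hF t
    · have := hF (F.symm t)
      rw [Equiv.apply_symm_apply] at this
      exact this.symm
  simpa [flat] using key

open Classical in
/-- The body of a token when the set `U` of vertices is used by links. -/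
noncomputable def GS.body {Γ : SimpleGraph G} {RE : Set (G × G)} (S : GS Γ RE) (U : Set G) :
    S.Port → List G
  | (Sum.inl v, _) => [v.1]
  | (Sum.inr e, true) => if e.1.1 ∈ U then S.Pn e.1 else S.Pa e.1
  | (Sum.inr e, false) => (if e.1.1 ∈ U then S.Pn e.1 else S.Pa e.1).reverse

/-- END: a state with one class gives a Hamiltonian cycle. -/
theorem end_of_state {Γ : SimpleGraph G} [Finite G] {RE : Set (G × G)} (S : GS Γ RE)
    {Φ : S.Port → S.Port} {seg : S.Port → List (G × G)} (h : St Γ RE S.vx Φ seg)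
    (a : S.Port) (hconn : ∀ p, Rel2 Φ flipB a p) : IsHC Γ Set.univ ∅ := by
  classical
  let U : Set G := {v | ∃ p, v ∈ flat (seg p)}
  -- both ends of an R-edge are used or none
  have hREne : ∀ e ∈ RE, ∀ v, v = e.1 ∨ v = e.2 → v ∈ S.Pa e := by
    intro e he v hv
    rw [(S.perm e he).mem_iff]
    rcases hv with rfl | rfl <;> simp
  have hREuniq : ∀ e ∈ RE, ∀ e' ∈ RE, ∀ v, v ∈ S.Pa e → v ∈ S.Pa e' → e = e' := by
    intro e he e' he' v hv hv'
    by_contra hne
    exact S.disj e he e' he' hne v hv hv'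
  have hU : ∀ v ∈ U, ∃ e ∈ RE, (v = e.1 ∨ v = e.2) ∧ e.1 ∈ U ∧ e.2 ∈ U := by
    rintro v ⟨p, hp⟩
    obtain ⟨e, he, hv⟩ := mem_flat.1 hp
    have u1 : e.1 ∈ U := ⟨p, mem_flat.2 ⟨e, he, Or.inl rfl⟩⟩
    have u2 : e.2 ∈ U := ⟨p, mem_flat.2 ⟨e, he, Or.inr rfl⟩⟩
    rcases (h.lk p).mem e he with h1 | h1
    · exact ⟨e, h1, hv, u1, u2⟩
    · exact ⟨e.swap, h1, hv.symm, u2, u1⟩
  have hU1 : ∀ e ∈ RE, ∀ v, v ∈ S.Pa e → v ∈ U → e.1 ∈ U ∧ e.2 ∈ U ∧ (v = e.1 ∨ v = e.2) := by
    intro e he v hv hvU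
    obtain ⟨e', he', h1, h2, h3⟩ := hU v hvU
    obtain rfl := hREuniq e he e' he' v hv (hREne e' he' v h1)
    exact ⟨h2, h3, h1⟩
  -- the path used by a gadget
  let pth : {e : G × G // e ∈ RE} → List G := fun e => if e.1.1 ∈ U then S.Pn e.1 else S.Pa e.1
  have hpn : ∀ e ∈ RE, ∀ v ∈ S.Pn e, v ∈ S.Pa e ∧ v ≠ e.1 ∧ v ≠ e.2 := by
    intro e he v hv
    have h1 := (S.perm e he).nodup_iff.1 (S.nodup e he)
    rw [List.nodup_cons, List.nodup_cons] at h1
    refine ⟨(S.perm e he).mem_iff.2 (by simp [hv]), ?_, ?_⟩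
    · rintro rfl; exact h1.1 (by simp [hv])
    · rintro rfl; exact h1.2.1 hv
  have hpth : ∀ e, ∀ v, v ∈ pth e → v ∈ S.Pa e.1 ∧ v ∉ U := by
    intro e v hv
    by_cases he : e.1.1 ∈ U
    · have hv' : v ∈ S.Pn e.1 := by
        have : pth e = S.Pn e.1 := if_pos he
        rwa [this] at hv
      obtain ⟨h1, h2, h3⟩ := hpn e.1 e.2 v hv'
      refine ⟨h1, fun hvU => ?_⟩
      rcases (hU1 e.1 e.2 v h1 hvU).2.2 with h4 | h4
      · exact h2 h4
      · exact h3 h4
    · have hv' : v ∈ S.Pa e.1 := by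
        have : pth e = S.Pa e.1 := if_neg he
        rwa [this] at hv
      exact ⟨hv', fun hvU => he (hU1 e.1 e.2 v hv' hvU).1⟩
  have hpth_cov : ∀ e ∈ RE, ∀ v, v ∈ S.Pa e → ∀ he : e ∈ RE, v ∈ pth ⟨e, he⟩ ∨ v ∈ U := by
    intro e he v hv _
    by_cases heU : e.1 ∈ U
    · have h1 := hU1 e he e.1 (hREne e he _ (Or.inl rfl)) heU
      rw [(S.perm e he).mem_iff] at hv
      simp only [List.mem_cons] at hv
      rcases hv with rfl | rfl | hv
      · exact Or.inr h1.1
      · exact Or.inr h1.2.1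
      · refine Or.inl ?_
        have : pth ⟨e, he⟩ = S.Pn e := if_pos heU
        rw [this]; exact hv
    · refine Or.inl ?_
      have : pth ⟨e, he⟩ = S.Pa e := if_neg heU
      rw [this]; exact hv
  have hpth_chain : ∀ e, (pth e).IsChain Γ.Adj := by
    intro e
    simp only [pth]
    split_ifs
    · exact S.pn_chain _ e.2
    · exact S.pa_chain _ e.2
  have hpth_head : ∀ e, (pth e).head? = some (S.ie e.1) := by
    intro e
    simp only [pth]
    split_ifs
    · exact S.pn_head _ e.2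
    · exact S.pa_head _ e.2
  have hpth_last : ∀ e, (pth e).getLast? = some (S.oe e.1) := by
    intro e
    simp only [pth]
    split_ifs
    · exact S.pn_last _ e.2
    · exact S.pa_last _ e.2
  have hpth_nodup : ∀ e, (pth e).Nodup := by
    intro e
    simp only [pth]
    split_ifs
    · have h1 := (S.perm _ e.2).nodup_iff.1 (S.nodup _ e.2)
      rw [List.nodup_cons, List.nodup_cons] at h1
      exact h1.2.2
    · exact S.nodup _ e.2
  have bd1 : ∀ e, S.body U (Sum.inr e, true) = pth e := fun e => rfl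
  have bd2 : ∀ e, S.body U (Sum.inr e, false) = (pth e).reverse := fun e => rfl
  have bd3 : ∀ v b, S.body U (Sum.inl v, b) = [v.1] := fun v b => by cases b <;> rfl
  have hbhead : ∀ p, (S.body U p).head? = some (S.vx p) := by
    rintro ⟨v | e, b⟩
    · rw [bd3]
      cases b <;> rfl
    · cases b
      · rw [bd2, List.head?_reverse, hpth_last]; rfl
      · rw [bd1, hpth_head]; rfl
  have hbn : ∀ p, S.body U p ≠ [] := by
    intro p hp
    have := hbhead p
    rw [hp] at this
    simp at this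
  have hbhead' : ∀ p, (S.body U p).head (hbn p) = S.vx p := by
    intro p
    have := hbhead p
    rw [List.head?_eq_some_head (hbn p)] at this
    exact Option.some_injective _ this
  have hbody_mem : ∀ (t : S.Tok) b v, v ∈ S.body U (t, b) ↔
      (∃ w, t = Sum.inl w ∧ v = w.1) ∨ (∃ e, t = Sum.inr e ∧ v ∈ pth e) := by
    rintro (w | e) b v
    · rw [bd3]
      simp
    · cases b
      · rw [bd2]; simp
      · rw [bd1]; simp
  refine expand Γ h.ffi flipB_ffi (S.body U) (fun p => flat (seg p)) hbn ?_ ?_ ?_ ?_ ?_ ?_ ?_ ?_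
    ?_ ?_ a hconn
  · rintro ⟨v | e, b⟩
    · change S.body U (Sum.inl v, !b) = (S.body U (Sum.inl v, b)).reverse
      rw [bd3, bd3]; rfl
    · cases b
      · change S.body U (Sum.inr e, true) = (S.body U (Sum.inr e, false)).reverse
        rw [bd1, bd2, List.reverse_reverse]
      · change S.body U (Sum.inr e, false) = (S.body U (Sum.inr e, true)).reverse
        rw [bd1, bd2]
  · intro p
    rw [h.rev, flat_rlk]
  · rintro ⟨v | e, b⟩
    · rw [bd3]; simp
    · cases b
      · rw [bd2, List.isChain_reverse]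
        exact (hpth_chain e).imp (fun _ _ hab => hab.symm)
      · rw [bd1]; exact hpth_chain e
  · intro p
    rw [hbhead', hbhead']
    exact (h.lk p).chain
  · rintro ⟨v | e, b⟩
    · rw [bd3]; simp
    · cases b
      · rw [bd2, List.nodup_reverse]; exact hpth_nodup e
      · rw [bd1]; exact hpth_nodup e
  · intro p
    exact (h.lk p).nodup
  · rintro ⟨t, b⟩ ⟨t', b'⟩ v hv hv'
    rw [hbody_mem] at hv hv'
    have ht : t = t' := by
      rcases hv with ⟨w, rfl, h1⟩ | ⟨e, rfl, h1⟩ <;> rcases hv' with ⟨w', rfl, h2⟩ | ⟨e', rfl, h2⟩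
      · congr 1; exact Subtype.ext (h1.symm.trans h2)
      · exfalso
        rw [h1] at h2
        exact w.2 e'.1 e'.2 (hpth e' _ h2).1
      · exfalso
        rw [h2] at h1
        exact w'.2 e.1 e.2 (hpth e _ h1).1
      · congr 1
        exact Subtype.ext (hREuniq _ e.2 _ e'.2 v (hpth e v h1).1 (hpth e' v h2).1)
    subst ht
    by_cases hb : b' = b
    · exact Or.inl (by rw [hb])
    · refine Or.inr ?_
      have : b' = !b := by
        cases b <;> cases b' <;> first | rfl | exact absurd rfl hb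
      rw [this]; rfl
  · intro p q v hv hv'
    exact h.disj p q v hv hv'
  · rintro ⟨t, b⟩ q v hv hv'
    have hvU : v ∈ U := ⟨q, hv'⟩
    rw [hbody_mem] at hv
    rcases hv with ⟨w, rfl, h1⟩ | ⟨e, rfl, h1⟩
    · obtain ⟨e, he, h2, -⟩ := hU v hvU
      have h3 := hREne e he v h2
      rw [h1] at h3
      exact w.2 e he h3
    · exact (hpth e v h1).2 hvU
  · intro v
    by_cases hv : v ∈ S.V'
    · refine Or.inl ⟨(Sum.inl ⟨v, hv⟩, true), ?_⟩
      rw [bd3]; simp
    · have hv' : ∃ e ∈ RE, v ∈ S.Pa e := by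
        by_contra hn
        push Not at hn
        exact hv hn
      obtain ⟨e, he, h1⟩ := hv'
      rcases hpth_cov e he v h1 he with h2 | h2
      · exact Or.inl ⟨(Sum.inr ⟨e, he⟩, true), by rw [bd1]; exact h2⟩
      · exact Or.inr h2

end Pool.Agent.Lib.MP_688fd0_co.TE
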