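import Pool.Agent.Lib.MP_688fd0_co.TE.H91.Inv

/-!
# Theorem E, chapter 7: number of classes meeting a set; halving
-/

namespace Pool.Agent.Lib.MP_688fd0_co.TE

variable {α : Type*}

theorem Rel2.equivalence {P : Type*} (Φ μ : P → P) : Equivalence (Rel2 Φ μ) :=
  ⟨Rel2.refl Φ μ, Rel2.symm, Rel2.trans⟩

/-- The number of classes of `R` meeting `Q`. -/
noncomputable def ncl (R : α → α → Prop) (Q : Set α) : ℕ :=
  Set.ncard ((fun q => {c | R q c}) '' Q)

theorem cls_eq {R : α → α → Prop} (hR : Equivalence R) {a b : α} :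
    ({c | R a c} : Set α) = {c | R b c} ↔ R a b := by
  constructor
  · intro h
    have : b ∈ ({c | R b c} : Set α) := hR.refl b
    rw [← h] at this
    exact this
  · intro h
    ext c
    exact ⟨fun h1 => hR.trans (hR.symm h) h1, fun h1 => hR.trans h h1⟩

theorem ncl_le_card [Finite α] (R : α → α → Prop) (Q : Set α) : ncl R Q ≤ Set.ncard Q :=
  Set.ncard_image_le (Set.toFinite _)

/-- Coarser relations have fewer classes. -/
theorem ncl_mono [Finite α] {R R' : α → α → Prop} (hR : Equivalence R) (hR' : Equivalence R')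
    (hRR : ∀ a b, R a b → R' a b) (Q : Set α) : ncl R' Q ≤ ncl R Q := by
  have h1 : ((fun q => {c | R' q c}) '' Q) =
      (fun s : Set α => {c | ∃ q ∈ s, R' q c}) '' ((fun q => {c | R q c}) '' Q) := by
    rw [Set.image_image]
    apply Set.image_congr
    intro q _
    ext c
    simp only [Set.mem_setOf_eq]
    constructor
    · intro h; exact ⟨q, hR.refl q, h⟩
    · rintro ⟨q', h1, h2⟩; exact hR'.trans (hRR _ _ h1) h2
  unfold ncl
  rw [h1]
  exact Set.ncard_image_le (Set.toFinite _)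

/-- HALVE. -/
theorem halve [Finite α] {R R' : α → α → Prop} (hR : Equivalence R) (hR' : Equivalence R')
    (hRR : ∀ a b, R a b → R' a b) (Q : Set α)
    (h : ∀ q ∈ Q, ∃ q' ∈ Q, ¬ R q q' ∧ R' q q') : 2 * ncl R' Q ≤ ncl R Q := by
  classical
  haveI := Fintype.ofFinite (Set α)
  let s : Finset (Set α) := ((fun q => {c | R q c}) '' Q).toFinset
  let t : Finset (Set α) := ((fun q => {c | R' q c}) '' Q).toFinset
  let f : Set α → Set α := fun S => {c | ∃ q ∈ S, R' q c}
  have hf : ∀ q, f {c | R q c} = {c | R' q c} := by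
    intro q
    ext c
    simp only [f, Set.mem_setOf_eq]
    constructor
    · rintro ⟨q', h1, h2⟩; exact hR'.trans (hRR _ _ h1) h2
    · intro h; exact ⟨q, hR.refl q, h⟩
  have hmaps : ∀ a ∈ s, f a ∈ t := by
    intro a ha
    simp only [s, t, Set.mem_toFinset, Set.mem_image] at ha ⊢
    obtain ⟨q, hq, rfl⟩ := ha
    exact ⟨q, hq, (hf q).symm⟩
  have hfib : ∀ b ∈ t, 2 ≤ (s.filter (fun a => f a = b)).card := by
    intro b hb
    simp only [t, Set.mem_toFinset, Set.mem_image] at hb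
    obtain ⟨q, hq, rfl⟩ := hb
    obtain ⟨q', hq', h1, h2⟩ := h q hq
    have hne : ({c | R q c} : Set α) ≠ {c | R q' c} := fun e => h1 ((cls_eq hR).1 e)
    have hsub : ({({c | R q c} : Set α), {c | R q' c}} : Finset (Set α)) ⊆
        s.filter (fun a => f a = {c | R' q c}) := by
      intro a ha
      simp only [Finset.mem_insert, Finset.mem_singleton] at ha
      rw [Finset.mem_filter]
      rcases ha with rfl | rfl
      · exact ⟨by simp only [s, Set.mem_toFinset]; exact ⟨q, hq, rfl⟩, hf q⟩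
      · refine ⟨by simp only [s, Set.mem_toFinset]; exact ⟨q', hq', rfl⟩, ?_⟩
        rw [hf q']
        exact ((cls_eq hR').2 h2).symm
    calc 2 = ({({c | R q c} : Set α), {c | R q' c}} : Finset (Set α)).card :=
          (Finset.card_pair hne).symm
      _ ≤ _ := Finset.card_le_card hsub
  have h3 := Finset.mul_card_image_le_card_of_maps_to hmaps 2 hfib
  unfold ncl
  rw [Set.ncard_eq_toFinset_card', Set.ncard_eq_toFinset_card']
  exact h3

/-- One round: the number of classes meeting `Q` is at most `max 1 (half)`. -/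
theorem halve_round [Finite α] {R R' : α → α → Prop} (hR : Equivalence R)
    (hR' : Equivalence R') (hRR : ∀ a b, R a b → R' a b) (Q : Set α)
    (h : ∀ q ∈ Q, (∃ q' ∈ Q, ¬ R q q') → ∃ x ∈ Q, ∃ y ∈ Q, R q x ∧ ¬ R q y ∧ R' x y) (N : ℕ)
    (hN : ncl R Q ≤ 2 * N) (hN1 : 1 ≤ N) : ncl R' Q ≤ N := by
  by_cases h1 : ∃ q ∈ Q, ∃ q' ∈ Q, ¬ R q q'
  · obtain ⟨q0, hq0, q1, hq1, h01⟩ := h1
    have h2 : 2 * ncl R' Q ≤ ncl R Q := by
      apply halve hR hR' hRR Q
      intro q hq
      have h3 : ∃ q' ∈ Q, ¬ R q q' := by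
        by_contra hn
        push Not at hn
        exact h01 (hR.trans (hR.symm (hn q0 hq0)) (hn q1 hq1))
      obtain ⟨x, hx, y, hy, h4, h5, h6⟩ := h q hq h3
      exact ⟨y, hy, h5, hR'.trans (hRR _ _ h4) h6⟩
    omega
  · push Not at h1
    have h2 : ncl R' Q ≤ 1 := by
      unfold ncl
      rw [Set.ncard_le_one (Set.toFinite _)]
      rintro _ ⟨q, hq, rfl⟩ _ ⟨q', hq', rfl⟩
      exact (cls_eq hR').2 (hRR _ _ (h1 q hq q' hq'))
    omega

/-- At most one class. -/
theorem ncl_le_one [Finite α] {R : α → α → Prop} (hR : Equivalence R) {Q : Set α}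
    (h : ncl R Q ≤ 1) : ∀ a ∈ Q, ∀ b ∈ Q, R a b := by
  intro a ha b hb
  unfold ncl at h
  rw [Set.ncard_le_one (Set.toFinite _)] at h
  exact (cls_eq hR).1 (h _ ⟨a, ha, rfl⟩ _ ⟨b, hb, rfl⟩)

end Pool.Agent.Lib.MP_688fd0_co.TE
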