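import Mathlib

/-!
# Theorem E, chapters 7 and 8, deterministic part 1: two fixed point free involutions

`Φ` (edges) and `μ` (tokens) are fixed point free involutions of a finite set of ports.  The
components are the classes of the relation generated by them.  MERGE: replacing the edges `a - Φ a`
and `b - Φ b` by `a - b` and `Φ a - Φ b` makes the relation coarser (no edge is a bridge).
-/

namespace Pool.Agent.Lib.MP_688fd0_co.TE

variable {P : Type*}

/-- Fixed point free involutions. -/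
structure FFI (f : P → P) : Prop where
  inv : ∀ p, f (f p) = p
  ne : ∀ p, f p ≠ p

/-- The relation generated by two maps. -/
def Rel2 (Φ μ : P → P) : P → P → Prop := Relation.EqvGen (fun a b => b = Φ a ∨ b = μ a)

theorem FFI.inj {f : P → P} (h : FFI f) : Function.Injective f := fun a b e => by
  rw [← h.inv a, e, h.inv]

theorem Rel2.refl (Φ μ : P → P) (a : P) : Rel2 Φ μ a a := Relation.EqvGen.refl a

theorem Rel2.symm {Φ μ : P → P} {a b : P} (h : Rel2 Φ μ a b) : Rel2 Φ μ b a :=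
  Relation.EqvGen.symm _ _ h

theorem Rel2.trans {Φ μ : P → P} {a b c : P} (h : Rel2 Φ μ a b) (h' : Rel2 Φ μ b c) :
    Rel2 Φ μ a c := Relation.EqvGen.trans _ _ _ h h'

theorem Rel2.phi (Φ μ : P → P) (a : P) : Rel2 Φ μ a (Φ a) := Relation.EqvGen.rel _ _ (Or.inl rfl)

theorem Rel2.mu (Φ μ : P → P) (a : P) : Rel2 Φ μ a (μ a) := Relation.EqvGen.rel _ _ (Or.inr rfl)

/-- Monotonicity. -/
theorem Rel2.lift {Φ μ Φ' μ' : P → P} (h1 : ∀ a, Rel2 Φ' μ' a (Φ a))
    (h2 : ∀ a, Rel2 Φ' μ' a (μ a)) {a b : P} (h : Rel2 Φ μ a b) : Rel2 Φ' μ' a b := by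
  induction h with
  | rel x y h =>
    rcases h with rfl | rfl
    · exact h1 x
    · exact h2 x
  | refl x => exact Rel2.refl _ _ x
  | symm x y _ ih => exact ih.symm
  | trans x y z _ _ ih1 ih2 => exact ih1.trans ih2

section dihedral

variable {Φ μ : P → P}

theorem iter_conj (Φ μ : P → P) (i : ℕ) (a : P) :
    (μ ∘ Φ)^[i] (μ a) = μ ((Φ ∘ μ)^[i] a) := by
  induction i generalizing a with
  | zero => rfl
  | succ i ih =>
    rw [Function.iterate_succ_apply, Function.iterate_succ_apply]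
    exact ih (Φ (μ a))

/-- Palindromes have no fixed points. -/
theorem pal (hΦ : FFI Φ) (hμ : FFI μ) (i : ℕ) :
    (∀ a, μ ((Φ ∘ μ)^[i] a) ≠ a) ∧ (∀ a, Φ ((μ ∘ Φ)^[i] a) ≠ a) := by
  induction i with
  | zero => exact ⟨hμ.ne, hΦ.ne⟩
  | succ i ih =>
    constructor
    · intro a h
      apply ih.2 (μ a)
      rw [iter_conj]
      rw [Function.iterate_succ_apply'] at h
      have h1 := congrArg μ h
      rw [hμ.inv] at h1
      exact h1
    · intro a h
      apply ih.1 (Φ a)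
      rw [iter_conj]
      rw [Function.iterate_succ_apply'] at h
      have h1 := congrArg Φ h
      rw [hΦ.inv] at h1
      exact h1

theorem iter_rel (Φ μ : P → P) (i : ℕ) (a : P) : Rel2 Φ μ a ((Φ ∘ μ)^[i] a) := by
  induction i with
  | zero => exact Rel2.refl _ _ a
  | succ i ih =>
    rw [Function.iterate_succ_apply']
    exact (ih.trans (Rel2.mu _ _ _)).trans (Rel2.phi _ _ _)

theorem comp_inj (hΦ : FFI Φ) (hμ : FFI μ) : Function.Injective (Φ ∘ μ) := hΦ.inj.comp hμ.inj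

/-- Every point is periodic. -/
theorem periodic [Finite P] (hΦ : FFI Φ) (hμ : FFI μ) (a : P) :
    a ∈ Function.periodicPts (Φ ∘ μ) :=
  (comp_inj hΦ hμ).mem_periodicPts a

/-- An edge is not a bridge: `a` and `Φ a` are joined without using the edge `a - Φ a`, inside the
class of `a`. -/
theorem nobridge [Finite P] (hΦ : FFI Φ) (hμ : FFI μ) (R : P → P → Prop)
    (hR1 : ∀ c, R c c) (hR2 : ∀ c d, R c d → R d c) (hR3 : ∀ c d e, R c d → R d e → R c e)
    (a : P) (hm : ∀ c, R c (μ c)) (hp : ∀ c, Rel2 Φ μ a c → c ≠ a → c ≠ Φ a → R c (Φ c)) :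
    R a (Φ a) := by
  set ρ := Φ ∘ μ with hρ
  have hper := periodic hΦ hμ a
  set N := Function.minimalPeriod ρ a with hN
  have hNpos : 0 < N := Function.minimalPeriod_pos_of_mem_periodicPts hper
  have key : ∀ i, i < N → R a (ρ^[i] a) := by
    intro i
    induction i with
    | zero => intro _; exact hR1 a
    | succ i ih =>
      intro hi
      have h1 := ih (by omega)
      have h2 : ρ^[i + 1] a = Φ (μ (ρ^[i] a)) := by
        rw [Function.iterate_succ_apply']; rfl
      rw [h2]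
      refine hR3 _ _ _ (hR3 _ _ _ h1 (hm _)) (hp _ ?_ ?_ ?_)
      · exact (iter_rel Φ μ i a).trans (Rel2.mu _ _ _)
      · exact (pal hΦ hμ i).1 a
      · intro h3
        have h4 : ρ^[i + 1] a = a := by rw [h2, h3, hΦ.inv]
        have h5 : N ≤ i + 1 :=
          Function.IsPeriodicPt.minimalPeriod_le (by omega) h4
        omega
  have h1 := key (N - 1) (by omega)
  have h2 : ρ^[N] a = a := Function.iterate_minimalPeriod
  have h3 : Φ (μ (ρ^[N - 1] a)) = a := by
    have : ρ^[N - 1 + 1] a = Φ (μ (ρ^[N - 1] a)) := by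
      rw [Function.iterate_succ_apply']; rfl
    rw [← this, Nat.sub_add_cancel hNpos, h2]
  have h4 : μ (ρ^[N - 1] a) = Φ a := by
    have h5 := congrArg Φ h3
    rwa [hΦ.inv] at h5
  rw [← h4]
  exact hR3 _ _ _ h1 (hm _)

end dihedral

open Classical in
/-- The merged edge involution. -/
noncomputable def mrg (Φ : P → P) (a b : P) : P → P := fun c =>
  if c = a then b else if c = b then a else if c = Φ a then Φ b else if c = Φ b then Φ a else Φ c

section merge

variable {Φ μ : P → P} {a b : P}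

theorem mrg_a : mrg Φ a b a = b := by simp [mrg]

theorem mrg_off {c : P} (h1 : c ≠ a) (h2 : c ≠ b) (h3 : c ≠ Φ a) (h4 : c ≠ Φ b) :
    mrg Φ a b c = Φ c := by simp [mrg, h1, h2, h3, h4]

/-- MERGE. -/
theorem merge [Finite P] (hΦ : FFI Φ) (hμ : FFI μ) (hab : ¬ Rel2 Φ μ a b) :
    FFI (mrg Φ a b) ∧ mrg Φ a b a = b ∧ mrg Φ a b b = a ∧ mrg Φ a b (Φ a) = Φ b ∧
      mrg Φ a b (Φ b) = Φ a ∧
      (∀ c, c ≠ a → c ≠ b → c ≠ Φ a → c ≠ Φ b → mrg Φ a b c = Φ c) ∧
      (∀ c d, Rel2 Φ μ c d → Rel2 (mrg Φ a b) μ c d) ∧ Rel2 (mrg Φ a b) μ a b := by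
  have n1 : a ≠ b := by rintro rfl; exact hab (Rel2.refl _ _ _)
  have n2 : Φ a ≠ a := hΦ.ne a
  have n3 : Φ b ≠ b := hΦ.ne b
  have n4 : Φ a ≠ b := by
    rintro h
    exact hab (h ▸ Rel2.phi Φ μ a)
  have n5 : Φ b ≠ a := by
    rintro h
    exact hab (h ▸ (Rel2.phi Φ μ b).symm)
  have n6 : Φ a ≠ Φ b := fun h => n1 (hΦ.inj h)
  have e1 : mrg Φ a b a = b := mrg_a
  have e2 : mrg Φ a b b = a := by simp [mrg, n1.symm]
  have e3 : mrg Φ a b (Φ a) = Φ b := by simp [mrg, n2, n4]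
  have e4 : mrg Φ a b (Φ b) = Φ a := by simp [mrg, n3, n5, n6.symm]
  have e5 : ∀ c, c ≠ a → c ≠ b → c ≠ Φ a → c ≠ Φ b → mrg Φ a b c = Φ c :=
    fun c h1 h2 h3 h4 => mrg_off h1 h2 h3 h4
  have hF : FFI (mrg Φ a b) := by
    constructor
    · intro c
      by_cases h1 : c = a
      · rw [h1, e1, e2]
      by_cases h2 : c = b
      · rw [h2, e2, e1]
      by_cases h3 : c = Φ a
      · rw [h3, e3, e4]
      by_cases h4 : c = Φ b
      · rw [h4, e4, e3]
      rw [e5 c h1 h2 h3 h4, e5, hΦ.inv]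
      · intro h; exact h3 (by rw [← h, hΦ.inv])
      · intro h; exact h4 (by rw [← h, hΦ.inv])
      · intro h; exact h1 (hΦ.inj h)
      · intro h; exact h2 (hΦ.inj h)
    · intro c
      by_cases h1 : c = a
      · rw [h1, e1]; exact n1.symm
      by_cases h2 : c = b
      · rw [h2, e2]; exact n1
      by_cases h3 : c = Φ a
      · rw [h3, e3]; exact n6.symm
      by_cases h4 : c = Φ b
      · rw [h4, e4]; exact n6
      rw [e5 c h1 h2 h3 h4]
      exact hΦ.ne c
  have hab' : Rel2 (mrg Φ a b) μ a b := by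
    have := Rel2.phi (mrg Φ a b) μ a
    rwa [e1] at this
  have hphiab : Rel2 (mrg Φ a b) μ (Φ a) (Φ b) := by
    have := Rel2.phi (mrg Φ a b) μ (Φ a)
    rwa [e3] at this
  have ha : Rel2 (mrg Φ a b) μ a (Φ a) := by
    apply nobridge hΦ hμ (Rel2 (mrg Φ a b) μ) (Rel2.refl _ _) (fun _ _ => Rel2.symm)
      (fun _ _ _ => Rel2.trans) a (Rel2.mu _ _)
    intro c hc h1 h2
    have h3 := Rel2.phi (mrg Φ a b) μ c
    rwa [e5 c h1 (by rintro rfl; exact hab hc) h2
      (by rintro rfl; exact hab (hc.trans (Rel2.phi Φ μ b).symm))] at h3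
  have hb : Rel2 (mrg Φ a b) μ b (Φ b) := (hab'.symm.trans ha).trans hphiab
  refine ⟨hF, e1, e2, e3, e4, e5, ?_, hab'⟩
  intro c d hcd
  apply Rel2.lift ?_ (Rel2.mu _ _) hcd
  intro c
  by_cases h1 : c = a
  · rw [h1]; exact ha
  by_cases h2 : c = b
  · rw [h2]; exact hb
  by_cases h3 : c = Φ a
  · rw [h3, hΦ.inv]; exact ha.symm
  by_cases h4 : c = Φ b
  · rw [h4, hΦ.inv]; exact hb.symm
  have h5 := Rel2.phi (mrg Φ a b) μ c
  rwa [e5 c h1 h2 h3 h4] at h5

end merge

end Pool.Agent.Lib.MP_688fd0_co.TE
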