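import Pool.Agent.Lib.MP_688fd0_co.TE.H91.Expand

/-!
# Theorem E, chapter 7, deterministic part: states, links, one round of merging
-/

namespace Pool.Agent.Lib.MP_688fd0_co.TE

open Pool.Agent.Lib.MP_688fd0_co

variable {P G : Type*}

/-- The vertices of a list of (oriented) R-edges. -/
def flat (l : List (G × G)) : List G := l.flatMap (fun e => [e.1, e.2])

/-- The reversed link. -/
def rlk (l : List (G × G)) : List (G × G) := (l.map Prod.swap).reverse

theorem flat_nil : flat ([] : List (G × G)) = [] := rfl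

theorem flat_cons (e : G × G) (l : List (G × G)) : flat (e :: l) = e.1 :: e.2 :: flat l := rfl

theorem flat_append (l l' : List (G × G)) : flat (l ++ l') = flat l ++ flat l' := by
  unfold flat
  rw [List.flatMap_append]

theorem flat_rlk (l : List (G × G)) : flat (rlk l) = (flat l).reverse := by
  induction l with
  | nil => rfl
  | cons e l ih =>
    have h : rlk (e :: l) = rlk l ++ [e.swap] := by simp [rlk]
    rw [h, flat_append, ih, flat_cons]
    simp [flat]

theorem rlk_rlk (l : List (G × G)) : rlk (rlk l) = l := by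
  unfold rlk
  rw [List.map_reverse, List.reverse_reverse, List.map_map]
  simp

theorem mem_flat {v : G} {l : List (G × G)} : v ∈ flat l ↔ ∃ e ∈ l, v = e.1 ∨ v = e.2 := by
  simp [flat]

/-- `l` is a link from `x` to `y` consisting of R-edges. -/
structure Lk (Γ : SimpleGraph G) (RE : Set (G × G)) (x y : G) (l : List (G × G)) : Prop where
  chain : (x :: (flat l ++ [y])).IsChain Γ.Adj
  nodup : (flat l).Nodup
  mem : ∀ e ∈ l, e ∈ RE ∨ e.swap ∈ RE

theorem Lk.rev {Γ : SimpleGraph G} {RE : Set (G × G)} {x y : G} {l : List (G × G)}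
    (h : Lk Γ RE x y l) : Lk Γ RE y x (rlk l) := by
  constructor
  · rw [flat_rlk]
    have h1 : y :: ((flat l).reverse ++ [x]) = (x :: (flat l ++ [y])).reverse := by simp
    rw [h1, List.isChain_reverse]
    refine h.chain.imp ?_
    intro a b hab
    exact hab.symm
  · rw [flat_rlk, List.nodup_reverse]
    exact h.nodup
  · intro e he
    unfold rlk at he
    rw [List.mem_reverse, List.mem_map] at he
    obtain ⟨e', he', rfl⟩ := he
    rw [Prod.swap_swap]
    exact (h.mem e' he').symm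

/-- A state of the merging procedure: the edges `p - Φ p` of the ports are realised by links. -/
structure St (Γ : SimpleGraph G) (RE : Set (G × G)) (vx : P → G) (Φ : P → P)
    (seg : P → List (G × G)) : Prop where
  ffi : FFI Φ
  lk : ∀ p, Lk Γ RE (vx p) (vx (Φ p)) (seg p)
  rev : ∀ p, seg (Φ p) = rlk (seg p)
  disj : ∀ p q v, v ∈ flat (seg p) → v ∈ flat (seg q) → q = p ∨ q = Φ p

/-- An option: join the ports `a`, `b` by `l1` and `Φ a`, `Φ b` by `l2`. -/
structure Opt (P G : Type*) where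
  a : P
  b : P
  l1 : List (G × G)
  l2 : List (G × G)

/-- The ports of an option. -/
def Opt.ports (Φ : P → P) (o : Opt P G) : Set P := {o.a, o.b, Φ o.a, Φ o.b}

/-- The vertices of the links of an option. -/
def Opt.used (o : Opt P G) : List G := flat o.l1 ++ flat o.l2

open Classical in
/-- The new links. -/
noncomputable def mseg (Φ : P → P) (seg : P → List (G × G)) (o : Opt P G) :
    P → List (G × G) := fun c =>
  if c = o.a then o.l1 else if c = o.b then rlk o.l1 else if c = Φ o.a then o.l2 else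
    if c = Φ o.b then rlk o.l2 else seg c

/-- One merge. -/
theorem step [Finite P] {Γ : SimpleGraph G} {RE : Set (G × G)} {vx : P → G} {Φ μ : P → P}
    {seg : P → List (G × G)} (h : St Γ RE vx Φ seg) (hμ : FFI μ) (o : Opt P G)
    (hab : ¬ Rel2 Φ μ o.a o.b) (h1 : Lk Γ RE (vx o.a) (vx o.b) o.l1)
    (h2 : Lk Γ RE (vx (Φ o.a)) (vx (Φ o.b)) o.l2) (h12 : ∀ v ∈ flat o.l1, v ∉ flat o.l2)
    (hd : ∀ v ∈ o.used, ∀ p, v ∉ flat (seg p)) :
    St Γ RE vx (mrg Φ o.a o.b) (mseg Φ seg o) := by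
  obtain ⟨hF, e1, e2, e3, e4, e5, -, -⟩ := merge h.ffi hμ hab
  have n1 : o.a ≠ o.b := by intro e; exact hab (e ▸ Rel2.refl _ _ _)
  have n2 : Φ o.a ≠ o.a := h.ffi.ne _
  have n3 : Φ o.b ≠ o.b := h.ffi.ne _
  have n4 : Φ o.a ≠ o.b := by
    intro e
    exact hab (e ▸ Rel2.phi Φ μ o.a)
  have n5 : Φ o.b ≠ o.a := by
    intro e
    exact hab (e ▸ (Rel2.phi Φ μ o.b).symm)
  have n6 : Φ o.a ≠ Φ o.b := fun e => n1 (h.ffi.inj e)
  have s1 : mseg Φ seg o o.a = o.l1 := by simp [mseg]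
  have s2 : mseg Φ seg o o.b = rlk o.l1 := by simp [mseg, n1.symm]
  have s3 : mseg Φ seg o (Φ o.a) = o.l2 := by simp [mseg, n2, n4]
  have s4 : mseg Φ seg o (Φ o.b) = rlk o.l2 := by simp [mseg, n3, n5, n6.symm]
  have s5 : ∀ c, c ≠ o.a → c ≠ o.b → c ≠ Φ o.a → c ≠ Φ o.b → mseg Φ seg o c = seg c := by
    intro c m1 m2 m3 m4
    simp [mseg, m1, m2, m3, m4]
  have off : ∀ c, c ≠ o.a → c ≠ o.b → c ≠ Φ o.a → c ≠ Φ o.b →
      (Φ c ≠ o.a ∧ Φ c ≠ o.b ∧ Φ c ≠ Φ o.a ∧ Φ c ≠ Φ o.b) := by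
    intro c m1 m2 m3 m4
    refine ⟨?_, ?_, fun e => m1 (h.ffi.inj e), fun e => m2 (h.ffi.inj e)⟩
    · intro e; exact m3 (by rw [← e, h.ffi.inv])
    · intro e; exact m4 (by rw [← e, h.ffi.inv])
  refine ⟨hF, ?_, ?_, ?_⟩
  · intro c
    by_cases m1 : c = o.a
    · rw [m1, e1, s1]; exact h1
    by_cases m2 : c = o.b
    · rw [m2, e2, s2]; exact h1.rev
    by_cases m3 : c = Φ o.a
    · rw [m3, e3, s3]; exact h2
    by_cases m4 : c = Φ o.b
    · rw [m4, e4, s4]; exact h2.rev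
    rw [e5 c m1 m2 m3 m4, s5 c m1 m2 m3 m4]
    exact h.lk c
  · intro c
    by_cases m1 : c = o.a
    · rw [m1, e1, s1, s2]
    by_cases m2 : c = o.b
    · rw [m2, e2, s2, s1, rlk_rlk]
    by_cases m3 : c = Φ o.a
    · rw [m3, e3, s3, s4]
    by_cases m4 : c = Φ o.b
    · rw [m4, e4, s4, s3, rlk_rlk]
    obtain ⟨k1, k2, k3, k4⟩ := off c m1 m2 m3 m4
    rw [e5 c m1 m2 m3 m4, s5 c m1 m2 m3 m4, s5 _ k1 k2 k3 k4]
    exact h.rev c
  · -- classification of the vertices of the links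
    have cls : ∀ c v, v ∈ flat (mseg Φ seg o c) →
        (v ∈ flat o.l1 ∧ (c = o.a ∨ c = o.b)) ∨ (v ∈ flat o.l2 ∧ (c = Φ o.a ∨ c = Φ o.b)) ∨
        (v ∈ flat (seg c) ∧ c ≠ o.a ∧ c ≠ o.b ∧ c ≠ Φ o.a ∧ c ≠ Φ o.b) := by
      intro c v hv
      by_cases m1 : c = o.a
      · rw [m1, s1] at hv; exact Or.inl ⟨hv, Or.inl m1⟩
      by_cases m2 : c = o.b
      · rw [m2, s2, flat_rlk, List.mem_reverse] at hv; exact Or.inl ⟨hv, Or.inr m2⟩
      by_cases m3 : c = Φ o.a
      · rw [m3, s3] at hv; exact Or.inr (Or.inl ⟨hv, Or.inl m3⟩)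
      by_cases m4 : c = Φ o.b
      · rw [m4, s4, flat_rlk, List.mem_reverse] at hv
        exact Or.inr (Or.inl ⟨hv, Or.inr m4⟩)
      rw [s5 c m1 m2 m3 m4] at hv
      exact Or.inr (Or.inr ⟨hv, m1, m2, m3, m4⟩)
    intro p q v hp hq
    have hd1 : ∀ v ∈ flat o.l1, ∀ p, v ∉ flat (seg p) := fun v hv p =>
      hd v (List.mem_append_left _ hv) p
    have hd2 : ∀ v ∈ flat o.l2, ∀ p, v ∉ flat (seg p) := fun v hv p =>
      hd v (List.mem_append_right _ hv) p
    rcases cls p v hp with ⟨a1, a2⟩ | ⟨a1, a2⟩ | ⟨a1, a2, a3, a4, a5⟩ <;>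
      rcases cls q v hq with ⟨b1, b2⟩ | ⟨b1, b2⟩ | ⟨b1, b2, b3, b4, b5⟩
    · rcases a2 with rfl | rfl <;> rcases b2 with rfl | rfl
      · exact Or.inl rfl
      · exact Or.inr e1.symm
      · exact Or.inr e2.symm
      · exact Or.inl rfl
    · exact absurd b1 (h12 v a1)
    · exact absurd b1 (hd1 v a1 q)
    · exact absurd a1 (h12 v b1)
    · rcases a2 with rfl | rfl <;> rcases b2 with rfl | rfl
      · exact Or.inl rfl
      · exact Or.inr e3.symm
      · exact Or.inr e4.symm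
      · exact Or.inl rfl
    · exact absurd b1 (hd2 v a1 q)
    · exact absurd a1 (hd1 v b1 p)
    · exact absurd a1 (hd2 v b1 p)
    · rw [e5 p a2 a3 a4 a5]
      exact h.disj p q v a1 b1

/-- The options of one round. -/
structure GoodOpts (Γ : SimpleGraph G) (RE : Set (G × G)) (vx : P → G) (Φ : P → P)
    (seg : P → List (G × G)) (l : List (Opt P G)) : Prop where
  lk1 : ∀ o ∈ l, Lk Γ RE (vx o.a) (vx o.b) o.l1
  lk2 : ∀ o ∈ l, Lk Γ RE (vx (Φ o.a)) (vx (Φ o.b)) o.l2
  d12 : ∀ o ∈ l, ∀ v ∈ flat o.l1, v ∉ flat o.l2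
  dst : ∀ o ∈ l, ∀ v ∈ o.used, ∀ p, v ∉ flat (seg p)
  dd : l.Pairwise (fun o o' => (∀ v ∈ o.used, v ∉ o'.used) ∧
    ∀ p ∈ o.ports Φ, p ∉ o'.ports Φ)

/-- ROUND: all the merges of one round. -/
theorem round [Finite P] {Γ : SimpleGraph G} {RE : Set (G × G)} {vx : P → G} {Φ μ : P → P}
    {seg : P → List (G × G)} (h : St Γ RE vx Φ seg) (hμ : FFI μ) (l : List (Opt P G))
    (hl : GoodOpts Γ RE vx Φ seg l) :
    ∃ (Φ' : P → P) (seg' : P → List (G × G)), St Γ RE vx Φ' seg' ∧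
      (∀ c d, Rel2 Φ μ c d → Rel2 Φ' μ c d) ∧ (∀ o ∈ l, Rel2 Φ' μ o.a o.b) ∧
      (∀ c, (∀ o ∈ l, c ∉ o.ports Φ) → Φ' c = Φ c ∧ seg' c = seg c) ∧
      (∀ c, ∀ v ∈ flat (seg' c), (∃ d, v ∈ flat (seg d)) ∨ ∃ o ∈ l, v ∈ o.used) := by
  induction l with
  | nil =>
    exact ⟨Φ, seg, h, fun _ _ => id, by simp, fun _ _ => ⟨rfl, rfl⟩, fun c v hv =>
      Or.inl ⟨c, hv⟩⟩
  | cons o t ih =>
    have hdd := List.pairwise_cons.1 hl.dd
    obtain ⟨Φ1, seg1, g1, g2, g3, g4, g5⟩ := ih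
      ⟨fun o' ho' => hl.lk1 o' (List.mem_cons_of_mem _ ho'),
       fun o' ho' => hl.lk2 o' (List.mem_cons_of_mem _ ho'),
       fun o' ho' => hl.d12 o' (List.mem_cons_of_mem _ ho'),
       fun o' ho' => hl.dst o' (List.mem_cons_of_mem _ ho'), hdd.2⟩
    have hoff : ∀ c ∈ o.ports Φ, Φ1 c = Φ c ∧ seg1 c = seg c := fun c hc =>
      g4 c (fun o' ho' => (hdd.1 o' ho').2 c hc)
    have pa : o.a ∈ o.ports Φ := Or.inl rfl
    have pb : o.b ∈ o.ports Φ := Or.inr (Or.inl rfl)
    have f1 : Φ1 o.a = Φ o.a := (hoff _ pa).1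
    have f2 : Φ1 o.b = Φ o.b := (hoff _ pb).1
    by_cases hab : Rel2 Φ1 μ o.a o.b
    · refine ⟨Φ1, seg1, g1, g2, ?_, ?_, ?_⟩
      · intro o' ho'
        rcases List.mem_cons.1 ho' with rfl | ho'
        · exact hab
        · exact g3 o' ho'
      · intro c hc
        exact g4 c (fun o' ho' => hc o' (List.mem_cons_of_mem _ ho'))
      · intro c v hv
        rcases g5 c v hv with h6 | ⟨o', ho', h6⟩
        · exact Or.inl h6
        · exact Or.inr ⟨o', List.mem_cons_of_mem _ ho', h6⟩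
    · have hmem : o ∈ o :: t := List.mem_cons_self
      have hst := step g1 hμ o hab (hl.lk1 o hmem) (by rw [f1, f2]; exact hl.lk2 o hmem)
        (hl.d12 o hmem) (by
          intro v hv p hp
          rcases g5 p v hp with ⟨d, h6⟩ | ⟨o', ho', h6⟩
          · exact hl.dst o hmem v hv d h6
          · exact (hdd.1 o' ho').1 v hv h6)
      obtain ⟨hF, e1, e2, e3, e4, e5, e6, e7⟩ := merge g1.ffi hμ hab
      refine ⟨_, _, hst, fun c d hcd => e6 c d (g2 c d hcd), ?_, ?_, ?_⟩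
      · intro o' ho'
        rcases List.mem_cons.1 ho' with rfl | ho'
        · exact e7
        · exact e6 _ _ (g3 o' ho')
      · intro c hc
        have hc0 := hc o hmem
        have hct := g4 c (fun o' ho' => hc o' (List.mem_cons_of_mem _ ho'))
        have m1 : c ≠ o.a := fun e => hc0 (Or.inl e)
        have m2 : c ≠ o.b := fun e => hc0 (Or.inr (Or.inl e))
        have m3 : c ≠ Φ1 o.a := fun e => hc0 (Or.inr (Or.inr (Or.inl (e.trans f1))))
        have m4 : c ≠ Φ1 o.b := fun e => hc0 (Or.inr (Or.inr (Or.inr (e.trans f2))))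
        constructor
        · rw [e5 c m1 m2 m3 m4]; exact hct.1
        · have : mseg Φ1 seg1 o c = seg1 c := by simp [mseg, m1, m2, m3, m4]
          rw [this]; exact hct.2
      · intro c v hv
        have key : v ∈ o.used ∨ v ∈ flat (seg1 c) := by
          unfold mseg at hv
          split_ifs at hv
          · exact Or.inl (List.mem_append_left _ hv)
          · rw [flat_rlk, List.mem_reverse] at hv
            exact Or.inl (List.mem_append_left _ hv)
          · exact Or.inl (List.mem_append_right _ hv)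
          · rw [flat_rlk, List.mem_reverse] at hv
            exact Or.inl (List.mem_append_right _ hv)
          · exact Or.inr hv
        rcases key with h6 | h6
        · exact Or.inr ⟨o, hmem, h6⟩
        · rcases g5 c v h6 with h7 | ⟨o', ho', h7⟩
          · exact Or.inl h7
          · exact Or.inr ⟨o', List.mem_cons_of_mem _ ho', h7⟩

end Pool.Agent.Lib.MP_688fd0_co.TE
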